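import Mathlib
import Pool.Agent.Lib.MP_72789f_nt.Fib

/-!
Sastry's triangles in which the square leg and the pentagonal hypotenuse have the same rank.
-/

namespace Pool.Agent.Results.MP_72789f_nt.EqualRank

open Pool.Agent.Lib.MP_72789f_nt

theorem aux {m n : ℕ} {e c T : ℤ} (he : e ^ 2 = 1) (hm : 1 ≤ m) (hn : 1 ≤ n)
    (hc : 2 * c = n * (3 * n - e)) (hT : 2 * T = m * (m + 1)) (h : (n ^ 2) ^ 2 + T ^ 2 = c ^ 2)
    (h5 : 0 ≤ 5 * (n : ℤ) - 3 * e) :
    ∃ t, Even t ∧ L t + 3 * e = 5 * n ∧ m * (m + 1) = n * F t := by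
  have h1 : ((m : ℤ) * (m + 1)) ^ 2 = n ^ 2 * (5 * n ^ 2 - 6 * e * n + 1) := by
    linear_combination 4 * h - (2 * T + m * (m + 1)) * hT + (2 * c + n * (3 * n - e)) * hc +
      n ^ 2 * he
  obtain ⟨s, hs⟩ : (n : ℤ) ∣ m * (m + 1) := (Int.pow_dvd_pow_iff two_ne_zero).1 ⟨_, h1⟩
  have hn' : (0 : ℤ) < n := by omega
  have hs0 : 0 ≤ s := by
    by_contra hc
    have : (0 : ℤ) ≤ m * (m + 1) := by positivity
    nlinarith
  have h2 : s ^ 2 = 5 * n ^ 2 - 6 * e * n + 1 := by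
    rw [hs, mul_pow] at h1
    exact mul_left_cancel₀ (by positivity) h1
  lift s to ℕ using hs0
  obtain ⟨b, hb⟩ : ∃ b : ℕ, 5 * (n : ℤ) - 3 * e = b := ⟨(5 * (n : ℤ) - 3 * e).toNat, by omega⟩
  obtain ⟨t, t1, t2, t3⟩ := pell (a := s) (b := b) (by
    rw [← hb]
    linear_combination -5 * h2 + 9 * he)
  exact ⟨t, t1, by rw [t3, ← hb]; ring, by rw [t2, hs]⟩

theorem result (m n c : ℕ) (hm : 1 ≤ m) (hn : 1 ≤ n)
    (hc : c = n * (3 * n - 1) / 2 ∨ c = n * (3 * n + 1) / 2)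
    (h : (m * (m + 1) / 2) ^ 2 + (n ^ 2) ^ 2 = c ^ 2) :
    (m * (m + 1) / 2, n ^ 2, c) = (3, 4, 5) ∨ (m * (m + 1) / 2, n ^ 2, c) = (105, 100, 145) := by
  have hT : 2 * (m * (m + 1) / 2) = m * (m + 1) :=
    Nat.mul_div_cancel' (Nat.even_mul_succ_self m).two_dvd
  have hT' : 2 * ((m * (m + 1) / 2 : ℕ) : ℤ) = m * (m + 1) := by exact_mod_cast hT
  have h' : ((n : ℤ) ^ 2) ^ 2 + ((m * (m + 1) / 2 : ℕ) : ℤ) ^ 2 = (c : ℤ) ^ 2 := by
    rw [add_comm]
    exact_mod_cast h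
  have hm' : (0 : ℤ) < m * (m + 1) := by positivity
  rcases hc with hc | hc
  · have h2 : 2 * c = n * (3 * n - 1) := by
      rw [hc]
      refine Nat.mul_div_cancel' (even_iff_two_dvd.1 ?_)
      rw [Nat.even_mul, Nat.even_iff, Nat.even_iff]
      omega
    have h3 : 2 * (c : ℤ) = n * (3 * n - 1) := by
      have := congrArg (Nat.cast : ℕ → ℤ) h2
      push_cast [Nat.cast_sub (show 1 ≤ 3 * n by omega)] at this
      exact this
    obtain ⟨t, t1, t2, t3⟩ := aux (e := 1) rfl hm hn h3 hT' h' (by omega)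
    rcases main1 (X := 2 * m + 1) t1 ⟨n, t2⟩ (by rw [t2]; linear_combination 20 * t3)
      with rfl | rfl | rfl
    · rw [show F 0 = 0 by rfl] at t3
      omega
    · rw [show L 4 = 7 by rfl] at t2
      obtain rfl : n = 2 := by omega
      rw [show F 4 = 3 by rfl] at t3
      obtain rfl : m = 2 := by
        have : (m : ℤ) = 2 := by nlinarith
        omega
      exact Or.inl (by rw [hc]; rfl)
    · rw [show L 8 = 47 by rfl] at t2
      obtain rfl : n = 10 := by omega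
      rw [show F 8 = 21 by rfl] at t3
      obtain rfl : m = 14 := by
        have : (m : ℤ) = 14 := by nlinarith
        omega
      exact Or.inr (by rw [hc]; rfl)
  · have h2 : 2 * c = n * (3 * n + 1) := by
      rw [hc]
      refine Nat.mul_div_cancel' (even_iff_two_dvd.1 ?_)
      rw [Nat.even_mul, Nat.even_iff, Nat.even_iff]
      omega
    have h3 : 2 * (c : ℤ) = n * (3 * n - -1) := by
      have := congrArg (Nat.cast : ℕ → ℤ) h2
      push_cast at this
      linarith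
    obtain ⟨t, t1, t2, t3⟩ := aux (e := -1) rfl hm hn h3 hT' h' (by omega)
    obtain rfl := main2 (X := 2 * m + 1) t1 ⟨n, t2⟩ (by rw [t2]; linear_combination 20 * t3)
    rw [show L 2 = 3 by rfl] at t2
    omega

end Pool.Agent.Results.MP_72789f_nt.EqualRank
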